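import Mathlib

namespace Pool.Agent.MP_f01bcf_lc

variable {A : Type*}

/-- A maximal code: a code (uniquely decodable set of words) that is not properly contained
in another code over the same alphabet. -/
def IsMaximalCode (X : Set (List A)) : Prop :=
  InformationTheory.UniquelyDecodable X ∧
    ∀ Y : Set (List A), InformationTheory.UniquelyDecodable Y → X ⊆ Y → Y = X

/-- `X^*`: the words that are concatenations of words of `X`. -/
def star (X : Finset (List A)) : Set (List A) :=
  {w | ∃ L : List (List A), (∀ x ∈ L, x ∈ X) ∧ L.flatten = w}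

/-- `|X|`: the maximal length of a word of `X`. -/
def maxLen (X : Finset (List A)) : ℕ := X.sup List.length

/-- `y` is strongly right completable for `X`. -/
def StronglyRightCompletable (X : Finset (List A)) (y : List A) : Prop :=
  ∀ u : List A, ∃ v : List A, y ++ u ++ v ∈ star X

/-- `a^P` is a left set of `X`, where `a` has order `n`. -/
def IsLeftSet (X : Finset (List A)) (a : A) (n : ℕ) (P : Set ℕ) : Prop :=
  ∃ y : List A, StronglyRightCompletable X y ∧
    P = {i : ℕ | i < n ∧ y ++ List.replicate (2 * n * maxLen X + i) a ∈ star X}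

/-- `a^Q` is a right set of `X`, where `a` has order `n`. -/
def IsRightSet (X : Finset (List A)) (a : A) (n : ℕ) (Q : Set ℕ) : Prop :=
  (∃ x : List A, Q = {k : ℕ | k < n ∧
      ∃ v : List A, List.replicate (k + 2 * n * maxLen X) a ++ x ++ v ∈ star X}) ∧
    ∀ i ∈ Q, ∀ j ∈ Q, i < j → ¬ ∃ z ∈ star X, z ++ List.replicate (j - i) a ∈ star X

/-- Krasner factorizations of order `n`: every `z < n` is `i + j` (ordinary sum) for exactly
one pair `(i, j) ∈ I × J`. -/
def IsKrasner (n : ℕ) (I J : Set ℕ) : Prop :=
  ∀ z < n, ∃! p : ℕ × ℕ, p.1 ∈ I ∧ p.2 ∈ J ∧ p.1 + p.2 = z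

end Pool.Agent.MP_f01bcf_lc
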