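import Mathlib
import Pool.Agent.MP_f01bcf_lc.Defs

namespace Pool.Agent.MP_f01bcf_lc

/-- the 31 words of the code; `false` is the letter `a` and `true` is the letter `b` -/
def codeList : List (List Bool) :=
  [[true, true],
   [false, false, true, true],
   [false, true, false, true],
   [true, false, false, true],
   [true, false, true, false],
   [true, true, false, true],
   [true, true, true, false],
   [false, false, false, false, true],
   [false, false, false, true, false],
   [false, true, false, false, false],
   [true, false, false, false, false],
   [true, true, false, false, false],
   [false, false, false, false, false, false],
   [false, false, true, false, false, true],
   [false, false, true, false, true, false],
   [false, false, true, true, false, true],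
   [false, false, true, true, true, false],
   [false, true, false, false, true, false],
   [false, true, false, true, true, false],
   [true, false, false, false, true, false],
   [true, false, false, true, true, false],
   [true, true, false, false, true, false],
   [true, true, false, true, true, false],
   [false, false, false, false, false, true, false],
   [false, false, false, false, true, true, false],
   [false, false, true, false, false, false, false],
   [false, false, true, true, false, false, false],
   [false, false, true, false, false, false, true, false],
   [false, false, true, false, false, true, true, false],
   [false, false, true, true, false, false, true, false],
   [false, false, true, true, false, true, true, false]]

/-- dangling suffixes -/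
def dang : List (List Bool) :=
  [[false, true],
   [true, false],
   [false, false, false],
   [false, false, true, false],
   [false, true, true, false]]

/-- transition table of the subset automaton, letter `a` -/
def trA : List ℕ := [1, 3, 5, 5, 7, 7, 10, 12, 8, 0, 14, 6, 0, 1, 6]

/-- transition table of the subset automaton, letter `b` -/
def trB : List ℕ := [2, 4, 6, 2, 8, 9, 11, 13, 8, 8, 6, 6, 9, 11, 11]

/-- residual words attached to the states -/
def label : List (List (List Bool)) :=
  [[[]],
   [[false, true, true], [true, false, true], [false, false, false, true], [false, false, true, false], [true, false, false, false], [false, false, false, false, false], [false, true, false, false, true], [false, true, false, true, false], [false, true, true, false, true], [false, true, true, true, false], [true, false, false, true, false], [true, false, true, true, false], [false, false, false, false, true, false], [false, false, false, true, true, false], [false, true, false, false, false, false], [false, true, true, false, false, false], [false, true, false, false, false, true, false], [false, true, false, false, true, true, false], [false, true, true, false, false, true, false], [false, true, true, false, true, true, false]],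
   [[true], [false, false, true], [false, true, false], [true, false, true], [true, true, false], [false, false, false, false], [true, false, false, false], [false, false, false, true, false], [false, false, true, true, false], [true, false, false, true, false], [true, false, true, true, false]],
   [[true, true], [false, false, true], [false, true, false], [false, false, false, false], [true, false, false, true], [true, false, true, false], [true, true, false, true], [true, true, true, false], [false, false, false, true, false], [false, false, true, true, false], [true, false, false, false, false], [true, true, false, false, false], [true, false, false, false, true, false], [true, false, false, true, true, false], [true, true, false, false, true, false], [true, true, false, true, true, false]],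
   [[false, true], [false, false, false], [false, false, true, false], [false, true, true, false]],
   [[false, true], [true, false], [false, false, false], [false, false, true, false], [false, true, true, false]],
   [[], [false, true], [true, false], [false, false, false], [false, false, true, false], [false, true, true, false]],
   [[true], [false, false], [false, true, false], [true, true, false]],
   [],
   [[false]],
   [[true], [false, false], [false, true, false], [false, true, true], [true, false, true], [true, true, false], [false, false, false, true], [false, false, true, false], [true, false, false, false], [false, false, false, false, false], [false, true, false, false, true], [false, true, false, true, false], [false, true, true, false, true], [false, true, true, true, false], [true, false, false, true, false], [true, false, true, true, false], [false, false, false, false, true, false], [false, false, false, true, true, false], [false, true, false, false, false, false], [false, true, true, false, false, false], [false, true, false, false, false, true, false], [false, true, false, false, true, true, false], [false, true, true, false, false, true, false], [false, true, true, false, true, true, false]],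
   [[false], [true], [false, false, true], [false, true, false], [true, false, true], [true, true, false], [false, false, false, false], [true, false, false, false], [false, false, false, true, false], [false, false, true, true, false], [true, false, false, true, false], [true, false, true, true, false]],
   [[false], [true, false]],
   [[], [true, false]],
   [[false], [true, false], [true, true], [false, false, true], [false, true, false], [false, false, false, false], [true, false, false, true], [true, false, true, false], [true, true, false, true], [true, true, true, false], [false, false, false, true, false], [false, false, true, true, false], [true, false, false, false, false], [true, true, false, false, false], [true, false, false, false, true, false], [true, false, false, true, true, false], [true, true, false, false, true, false], [true, true, false, true, true, false]]]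

/-- reachable triples of states -/
def triples : List (ℕ × ℕ × ℕ) :=
  [(0, 1, 5), (0, 5, 5), (0, 12, 5), (1, 0, 7), (1, 3, 7), (1, 7, 7), (2, 4, 9), (2, 9, 9), (3, 1, 12), (3, 5, 12), (3, 12, 12), (4, 2, 13), (4, 13, 13), (5, 0, 0), (5, 3, 0), (5, 7, 0), (6, 8, 8), (7, 1, 1), (7, 5, 1), (7, 12, 1), (8, 6, 6), (8, 6, 10), (8, 6, 11), (8, 6, 14), (8, 10, 6), (8, 10, 10), (8, 10, 14), (8, 11, 6), (8, 11, 11), (8, 14, 6), (8, 14, 10), (8, 14, 14), (9, 2, 2), (9, 13, 2), (10, 8, 8), (11, 8, 8), (12, 0, 3), (12, 3, 3), (12, 7, 3), (13, 4, 4), (13, 9, 4), (14, 8, 8)]
end Pool.Agent.MP_f01bcf_lc
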