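import Mathlib
import Pool.Agent.MP_f01bcf_lc.Defs
import Pool.Agent.MP_f01bcf_lc.Data

namespace Pool.Agent.MP_f01bcf_lc

open InformationTheory

/-! ### Unique decodability -/

/-- general Sardinas-Patterson criterion, in the form needed here -/
theorem no_dangling {A : Type*} (X : List (List A)) (D : List (List A))
    (hD0 : ∀ d ∈ D, d ≠ [])
    (hX0 : ∀ x ∈ X, x ≠ [])
    (h1 : ∀ d ∈ D, ∀ x ∈ X, ∀ e, d = x ++ e → e ∈ D)
    (h2 : ∀ d ∈ D, ∀ x ∈ X, ∀ e, x = d ++ e → e ∈ D) :
    ∀ (N : ℕ) (d : List A) (L₁ L₂ : List (List A)), d ∈ D → (∀ x ∈ L₁, x ∈ X) →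
      (∀ x ∈ L₂, x ∈ X) → L₁.flatten.length + L₂.flatten.length ≤ N →
      L₁.flatten ≠ d ++ L₂.flatten := by
  intro N
  induction N with
  | zero =>
    intro d L₁ L₂ hd _ _ hN h
    have hl := congrArg List.length h
    rw [List.length_append] at hl
    have : 0 < d.length := List.length_pos_iff.2 (hD0 d hd)
    omega
  | succ N ih =>
    intro d L₁ L₂ hd hL₁ hL₂ hN h
    cases L₁ with
    | nil =>
      have hl := congrArg List.length h
      rw [List.length_append] at hl
      have : 0 < d.length := List.length_pos_iff.2 (hD0 d hd)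
      simp at hl
      omega
    | cons x L₁ =>
      have hx : x ∈ X := hL₁ x (by simp)
      have hxpos : 0 < x.length := List.length_pos_iff.2 (hX0 x hx)
      rw [List.flatten_cons] at h
      rw [List.flatten_cons, List.length_append] at hN
      rcases List.append_eq_append_iff.1 h with ⟨e, he1, he2⟩ | ⟨e, he1, he2⟩
      · -- d = x ++ e, L₁.flatten = e ++ L₂.flatten
        have he : e ∈ D := h1 d hd x hx e he1
        exact ih e L₁ L₂ he (fun y hy => hL₁ y (by simp [hy])) hL₂ (by omega) he2
      · -- x = d ++ e, L₂.flatten = e ++ L₁.flatten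
        have he : e ∈ D := h2 d hd x hx e he1
        refine ih e L₂ L₁ he hL₂ (fun y hy => hL₁ y (by simp [hy])) ?_ he2
        omega

theorem uniquelyDecodable_of_dangling {A : Type*} (X : List (List A)) (D : List (List A))
    (hD0 : ∀ d ∈ D, d ≠ [])
    (hX0 : ∀ x ∈ X, x ≠ [])
    (h0 : ∀ x ∈ X, ∀ y ∈ X, ∀ e, y = x ++ e → e ≠ [] → e ∈ D)
    (h1 : ∀ d ∈ D, ∀ x ∈ X, ∀ e, d = x ++ e → e ∈ D)
    (h2 : ∀ d ∈ D, ∀ x ∈ X, ∀ e, x = d ++ e → e ∈ D) :
    UniquelyDecodable {x : List A | x ∈ X} := by
  have key := no_dangling X D hD0 hX0 h1 h2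
  intro L₁
  induction L₁ with
  | nil =>
    intro L₂ _ hL₂ h
    cases L₂ with
    | nil => rfl
    | cons y L₂ =>
      exfalso
      have hl := congrArg List.length h
      have : 0 < y.length := List.length_pos_iff.2 (hX0 y (hL₂ y (by simp)))
      simp only [List.flatten_cons, List.flatten_nil, List.length_append, List.length_nil] at hl
      omega
  | cons x L₁ ih =>
    intro L₂ hL₁ hL₂ h
    cases L₂ with
    | nil =>
      exfalso
      have hl := congrArg List.length h
      have : 0 < x.length := List.length_pos_iff.2 (hX0 x (hL₁ x (by simp)))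
      simp only [List.flatten_cons, List.flatten_nil, List.length_append, List.length_nil] at hl
      omega
    | cons y L₂ =>
      have hx : x ∈ X := hL₁ x (by simp)
      have hy : y ∈ X := hL₂ y (by simp)
      rw [List.flatten_cons, List.flatten_cons] at h
      rcases List.append_eq_append_iff.1 h with ⟨e, he1, he2⟩ | ⟨e, he1, he2⟩
      · by_cases hne : e = []
        · subst hne
          rw [List.append_nil] at he1
          subst he1
          rw [List.nil_append] at he2
          rw [ih L₂ (fun z hz => hL₁ z (by simp [hz])) (fun z hz => hL₂ z (by simp [hz])) he2]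
        · exact absurd he2 (key _ e L₁ L₂ (h0 x hx y hy e he1 hne)
            (fun z hz => hL₁ z (by simp [hz])) (fun z hz => hL₂ z (by simp [hz])) le_rfl)
      · by_cases hne : e = []
        · subst hne
          rw [List.append_nil] at he1
          subst he1
          rw [List.nil_append] at he2
          rw [ih L₂ (fun z hz => hL₁ z (by simp [hz])) (fun z hz => hL₂ z (by simp [hz]))
            he2.symm]
        · exact absurd he2 (key _ e L₂ L₁ (h0 y hy x hx e he1 hne)
            (fun z hz => hL₂ z (by simp [hz])) (fun z hz => hL₁ z (by simp [hz])) le_rfl)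

theorem ud_codeList : UniquelyDecodable {x : List Bool | x ∈ codeList} := by
  apply uniquelyDecodable_of_dangling codeList dang
  · decide
  · decide
  · intro x hx y hy e he hne
    have h : ∀ x ∈ codeList, ∀ y ∈ codeList, x <+: y → y.drop x.length ≠ [] →
        y.drop x.length ∈ dang := by decide
    have h3 : y.drop x.length = e := by rw [he, List.drop_left]
    rw [← h3]
    exact h x hx y hy ⟨e, he.symm⟩ (by rw [h3]; exact hne)
  · intro d hd x hx e he
    have h : ∀ d ∈ dang, ∀ x ∈ codeList, x <+: d → d.drop x.length ∈ dang := by decide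
    have h3 : d.drop x.length = e := by rw [he, List.drop_left]
    rw [← h3]
    exact h d hd x hx ⟨e, he.symm⟩
  · intro d hd x hx e he
    have h : ∀ d ∈ dang, ∀ x ∈ codeList, d <+: x → x.drop d.length ∈ dang := by decide
    have h3 : x.drop d.length = e := by rw [he, List.drop_left]
    rw [← h3]
    exact h d hd x hx ⟨e, he.symm⟩

/-- the code -/
def code : Finset (List Bool) := codeList.toFinset

theorem mem_code {x : List Bool} : x ∈ code ↔ x ∈ codeList := by
  simp [code]

theorem ud_code : UniquelyDecodable (code : Set (List Bool)) := by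
  have : (code : Set (List Bool)) = {x : List Bool | x ∈ codeList} := by
    ext x; simp [mem_code]
  rw [this]
  exact ud_codeList

theorem kraft_code : ∑ w ∈ code, (1 / Fintype.card Bool : ℝ) ^ w.length = 1 := by
  have hnd : codeList.Nodup := by decide
  have h1 : ∑ w ∈ code, 2 ^ (8 - w.length) = 2 ^ 8 := by
    unfold code
    rw [List.sum_toFinset _ hnd]
    decide
  have hlen : ∀ w ∈ codeList, w.length ≤ 8 := by decide
  have h2 : ∀ w ∈ code, (1 / Fintype.card Bool : ℝ) ^ w.length =
      ((2 ^ (8 - w.length) : ℕ) : ℝ) / 2 ^ 8 := by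
    intro w hw
    have h3 := hlen w (mem_code.1 hw)
    rw [Fintype.card_bool]
    push_cast
    rw [div_pow, one_pow, div_eq_div_iff (by positivity) (by positivity), one_mul, ← pow_add]
    congr 1
    omega
  rw [Finset.sum_congr rfl h2, ← Finset.sum_div, ← Nat.cast_sum, h1]
  norm_num

theorem isMaximalCode_code : IsMaximalCode (code : Set (List Bool)) := by
  classical
  refine ⟨ud_code, ?_⟩
  intro Y hY hsub
  by_contra hne
  obtain ⟨w, hwY, hwX⟩ : ∃ w ∈ Y, w ∉ (code : Set (List Bool)) := by
    by_contra h
    push Not at h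
    exact hne (Set.Subset.antisymm h hsub)
  have hud : UniquelyDecodable ((insert w code : Finset (List Bool)) : Set (List Bool)) := by
    intro L₁ L₂ h1 h2 h
    have hs : ∀ x ∈ ((insert w code : Finset (List Bool)) : Set (List Bool)), x ∈ Y := by
      intro x hx
      rw [Finset.coe_insert] at hx
      rcases hx with rfl | hx
      · exact hwY
      · exact hsub hx
    exact hY L₁ L₂ (fun x hx => hs x (h1 x hx)) (fun x hx => hs x (h2 x hx)) h
  have hk := kraft_mcmillan_inequality hud
  rw [Finset.sum_insert (by simpa using hwX), kraft_code] at hk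
  have : (0 : ℝ) < (1 / Fintype.card Bool : ℝ) ^ w.length := by
    rw [Fintype.card_bool]; positivity
  linarith

/-! ### The subset automaton of `X^*` -/

/-- transition function -/
def tr (q : ℕ) (c : Bool) : ℕ := if c then trB.getD q 8 else trA.getD q 8

/-- residuals of a state -/
def lab (q : ℕ) : List (List Bool) := label.getD q []

/-- run of the automaton -/
def run (q : ℕ) (w : List Bool) : ℕ := w.foldl tr q

theorem tr_lt : ∀ q < 15, ∀ c, tr q c < 15 := by decide

theorem run_lt (w : List Bool) : ∀ q < 15, run q w < 15 := by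
  induction w with
  | nil => intro q hq; exact hq
  | cons c w ih => intro q hq; exact ih _ (tr_lt q hq c)

theorem run_append (q : ℕ) (u v : List Bool) : run q (u ++ v) = run (run q u) v := by
  simp [run, List.foldl_append]

theorem lab_step_fwd1 : ∀ q < 15, ∀ s ∈ lab q, ∀ c, s.head? = some c →
    s.tail ∈ lab (tr q c) := by decide

theorem lab_step_fwd2 : ∀ q < 15, [] ∈ lab q → ∀ x ∈ codeList, ∀ c, x.head? = some c →
    x.tail ∈ lab (tr q c) := by decide

theorem lab_step_bwd : ∀ q < 15, ∀ c, ∀ r ∈ lab (tr q c),
    (c :: r ∈ lab q) ∨ ([] ∈ lab q ∧ c :: r ∈ codeList) := by decide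

theorem lab_eq_nil_iff : ∀ q < 15, lab q = [] ↔ q = 8 := by decide

theorem run_residual (s : List Bool) : ∀ q < 15, s ∈ lab q → [] ∈ lab (run q s) := by
  induction s with
  | nil => intro q _ h; exact h
  | cons c s ih =>
    intro q hq h
    exact ih _ (tr_lt q hq c) (lab_step_fwd1 q hq _ h c rfl)

theorem run_codeword (x : List Bool) (hx : x ∈ codeList) (q : ℕ) (hq : q < 15)
    (h : [] ∈ lab q) : [] ∈ lab (run q x) := by
  cases x with
  | nil => exact h
  | cons c x =>
    exact run_residual x _ (tr_lt q hq c) (lab_step_fwd2 q hq h _ hx c rfl)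

theorem accept_of_mem_star {w : List Bool} (hw : w ∈ star code) : [] ∈ lab (run 0 w) := by
  obtain ⟨L, hL, rfl⟩ := hw
  have : ∀ (L : List (List Bool)), (∀ x ∈ L, x ∈ code) → ∀ q < 15, [] ∈ lab q →
      [] ∈ lab (run q L.flatten) := by
    intro L
    induction L with
    | nil => intro _ q _ h; exact h
    | cons x L ih =>
      intro hL q hq h
      rw [List.flatten_cons, run_append]
      exact ih (fun y hy => hL y (by simp [hy])) _ (run_lt x q hq)
        (run_codeword x (mem_code.1 (hL x (by simp))) q hq h)
  exact this L hL 0 (by norm_num) (by decide)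

theorem star_append_mem {u x : List Bool} (hu : u ∈ star code) (hx : x ∈ code) :
    u ++ x ∈ star code := by
  obtain ⟨L, hL, rfl⟩ := hu
  refine ⟨L ++ [x], ?_, by simp⟩
  intro y hy
  rw [List.mem_append, List.mem_singleton] at hy
  rcases hy with hy | rfl
  · exact hL y hy
  · exact hx

theorem residual_mem_star (w : List Bool) : ∀ r ∈ lab (run 0 w), w ++ r ∈ star code := by
  induction w using List.reverseRecOn with
  | nil =>
    intro r hr
    have h0 : lab (run 0 []) = [[]] := by decide
    rw [h0, List.mem_singleton] at hr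
    subst hr
    exact ⟨[], by simp, by simp⟩
  | append_singleton w c ih =>
    intro r hr
    have hlt : run 0 w < 15 := run_lt w 0 (by norm_num)
    rw [run_append] at hr
    have hr' : r ∈ lab (tr (run 0 w) c) := hr
    have e : w ++ [c] ++ r = w ++ (c :: r) := by simp
    rw [e]
    rcases lab_step_bwd _ hlt c r hr' with h | ⟨h1, h2⟩
    · exact ih _ h
    · have := star_append_mem (ih [] h1) (mem_code.2 h2)
      simpa using this

theorem mem_star_iff {w : List Bool} : w ∈ star code ↔ [] ∈ lab (run 0 w) := by
  constructor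
  · exact accept_of_mem_star
  · intro h
    simpa using residual_mem_star w [] h

theorem completable_iff {w : List Bool} : (∃ v, w ++ v ∈ star code) ↔ run 0 w ≠ 8 := by
  have hlt : run 0 w < 15 := run_lt w 0 (by norm_num)
  constructor
  · rintro ⟨v, hv⟩ h8
    rw [mem_star_iff, run_append, h8] at hv
    have : ∀ v : List Bool, run 8 v = 8 := by
      intro v
      induction v with
      | nil => rfl
      | cons c v ih =>
        have : tr 8 c = 8 := by cases c <;> decide
        change run (tr 8 c) v = 8
        rw [this, ih]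
    rw [this] at hv
    exact absurd hv (by decide)
  · intro h
    have hne : lab (run 0 w) ≠ [] := fun h' => h ((lab_eq_nil_iff _ hlt).1 h')
    obtain ⟨r, hr⟩ := List.exists_mem_of_ne_nil _ hne
    exact ⟨r, residual_mem_star w r hr⟩

/-! ### The two facts about `X` -/

theorem one_not_return : ¬ ∃ z ∈ star code, z ++ [false] ∈ star code := by
  rintro ⟨z, hz, hz'⟩
  rw [mem_star_iff] at hz hz'
  rw [run_append] at hz'
  have hlt : run 0 z < 15 := run_lt z 0 (by norm_num)
  have h : ∀ q < 15, [] ∈ lab q → [] ∉ lab (tr q false) := by decide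
  exact h _ hlt hz hz'

theorem three_return : ∃ z ∈ star code, z ++ List.replicate 3 false ∈ star code := by
  refine ⟨[true, true], ?_, ?_⟩
  · rw [mem_star_iff]; decide
  · rw [mem_star_iff]; decide

set_option maxRecDepth 20000 in
theorem triples_closed : ∀ t ∈ triples, ∀ c, (tr t.1 c, tr t.2.1 c, tr t.2.2 c) ∈ triples := by
  decide

theorem triples_good : ∀ t ∈ triples, t.1 ≠ 8 → t.2.1 ≠ 8 → t.2.2 ≠ 8 := by decide

theorem run_triples (x : List Bool) : ∀ t ∈ triples,
    (run t.1 x, run t.2.1 x, run t.2.2 x) ∈ triples := by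
  induction x with
  | nil => intro t ht; exact ht
  | cons c x ih =>
    intro t ht
    exact ih _ (triples_closed t ht c)

set_option maxRecDepth 20000 in
theorem run_start : (run 0 (List.replicate 96 false), run 0 (List.replicate 97 false),
    run 0 (List.replicate 99 false)) ∈ triples := by decide

set_option maxRecDepth 20000 in
theorem right_completable (x : List Bool)
    (h0 : ∃ v, List.replicate 96 false ++ x ++ v ∈ star code)
    (h1 : ∃ v, List.replicate 97 false ++ x ++ v ∈ star code) :
    ∃ v, List.replicate 99 false ++ x ++ v ∈ star code := by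
  rw [completable_iff, run_append] at h0 h1 ⊢
  have := run_triples x _ run_start
  exact triples_good _ this h0 h1

theorem maxLen_code : maxLen code = 8 := by decide

end Pool.Agent.MP_f01bcf_lc
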